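import Mathlib
import Pool.Agent.Lib.MP_3f57e5_an.Defs
import Pool.Agent.Lib.MP_3f57e5_an.Final

/-!
# The relaxed reinforcing problem is not the relaxation of the network problem
-/

open MeasureTheory Set Filter Topology
open Pool.Agent.Lib.MP_3f57e5_an

namespace Pool.Agent.Results.MP_3f57e5_an.ApproximationFails

/-- **Negative answer to Q1 of MP_3f57e5_an.** Let `Ω` be a nonempty bounded open subset of the
plane (in particular any bounded Lipschitz domain), `m > 0` and `L > 0`. Then there are a signed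
measure `f`, a measure `μ ∈ 𝓜_L` and `κ > 0` such that `𝓔_f(S) > -∞` for some `S ∈ 𝓐_L`,
`𝓔_f(μ) > -∞`, and for every sequence of networks `S n` of `𝓐_L` (closed in the plane or only
relatively closed in `Ω`) with `𝓗¹ ⌊ S n → μ` weakly* one has
`𝓔_f(S n) ≤ 𝓔_f(μ) - κ` for all large `n`; so `𝓔_f(S n)` does not tend to `𝓔_f(μ)`. -/
theorem result {Ω : Set Plane} (hΩ : IsOpen Ω) (hb : Bornology.IsBounded Ω)
    (hne : Ω.Nonempty) {m L : ℝ} (hm : 0 < m) (hL : 0 < L) :
    ∃ (f : SignedMeasure Plane) (μ : FiniteMeasure Plane) (κ : ℝ), 0 < κ ∧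
      (∃ S ∈ networks Ω L, energy Ω f m (μH[1].restrict S) ≠ ⊥) ∧
      μ ∈ relaxed Ω L ∧ energy Ω f m μ ≠ ⊥ ∧
      ∀ (S : ℕ → Set Plane) (ν : ℕ → FiniteMeasure Plane),
        (∀ n, S n ∈ relNetworks Ω L) → (∀ n, (ν n : Measure Plane) = μH[1].restrict (S n)) →
        Tendsto ν atTop (𝓝 μ) →
        (∀ᶠ n in atTop, energy Ω f m (μH[1].restrict (S n)) ≤ energy Ω f m μ - (κ : EReal)) ∧
        ¬ Tendsto (fun n => energy Ω f m (μH[1].restrict (S n))) atTop
            (𝓝 (energy Ω f m μ)) :=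
  main hΩ hb hne hm hL

end Pool.Agent.Results.MP_3f57e5_an.ApproximationFails
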